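import Pool.Agent.H854R3.CR.Stmts
import Mathlib

set_option autoImplicit false

namespace Pool.Agent.H158I.CR.Ab

open Pool.Agent.H854R3.NE Pool.Agent.H854R3.CR DirectSum

/-- Finitely generated abelian groups are residually finite (in the form needed). -/
theorem exists_not_smul (G : Type) [AddCommGroup G] [AddGroup.FG G] (h : G) (hh : h ≠ 0) :
    ∃ m : ℕ, 0 < m ∧ ∀ x : G, m • x ≠ h := by
  obtain ⟨n, ι, _, p, hp, e, ⟨f⟩⟩ := AddCommGroup.equiv_free_prod_directSum_zmod G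
  by_cases hu : (f h).1 = 0
  · refine ⟨∏ i, p i ^ e i, Finset.prod_pos fun i _ => pow_pos (hp i).pos _, ?_⟩
    intro x hx
    apply hh
    have h2 : (f h).2 = 0 := by
      rw [← hx, map_nsmul, Prod.smul_snd]
      refine DFinsupp.ext fun i => ?_
      rw [DFinsupp.smul_apply, DFinsupp.zero_apply, nsmul_eq_mul]
      have : ((∏ i, p i ^ e i : ℕ) : ZMod (p i ^ e i)) = 0 := by
        rw [ZMod.natCast_eq_zero_iff]
        exact Finset.dvd_prod_of_mem _ (Finset.mem_univ i)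
      rw [this, zero_mul]
    have h3 : f h = 0 := Prod.ext hu h2
    exact (map_eq_zero_iff f f.injective).1 h3
  · obtain ⟨i, hi⟩ : ∃ i, (f h).1 i ≠ 0 := by
      by_contra hcon
      push Not at hcon
      exact hu (Finsupp.ext hcon)
    refine ⟨((f h).1 i).natAbs + 1, Nat.succ_pos _, ?_⟩
    intro x hx
    have h1 : (((f h).1 i).natAbs + 1) • ((f x).1 i) = (f h).1 i := by
      have := congrArg (fun y => (f y).1 i) hx
      simpa using this
    have h2 : (((f h).1 i).natAbs + 1) * ((f x).1 i).natAbs = ((f h).1 i).natAbs := by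
      have := congrArg Int.natAbs h1
      rw [nsmul_eq_mul, Int.natAbs_mul, Int.natAbs_natCast] at this
      exact this
    have h3 : ((f h).1 i).natAbs ≠ 0 := by
      intro h; exact hi (Int.natAbs_eq_zero.1 h)
    have h4 : ((f x).1 i).natAbs ≠ 0 := by
      intro h; rw [h, mul_zero] at h2; exact h3 h2.symm
    have h5 : 1 ≤ ((f x).1 i).natAbs := Nat.one_le_iff_ne_zero.2 h4
    have h6 := Nat.mul_le_mul_left (((f h).1 i).natAbs + 1) h5
    omega

theorem taskAb : TaskAb := by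
  intro R _ hfg ⟨h, hh, hall⟩
  obtain ⟨m, hm, hmx⟩ := exists_not_smul R h hh
  let I : TwoSidedIdeal R := TwoSidedIdeal.mk' {x | ∃ r : R, m • r = x}
    ⟨0, by simp⟩
    (by rintro x y ⟨r, rfl⟩ ⟨s, rfl⟩; exact ⟨r + s, by rw [smul_add]⟩)
    (by rintro x ⟨r, rfl⟩; exact ⟨-r, by rw [smul_neg]⟩)
    (by rintro x y ⟨r, rfl⟩; exact ⟨x * r, by rw [mul_smul_comm]⟩)
    (by rintro x y ⟨r, rfl⟩; exact ⟨r * y, by rw [smul_mul_assoc]⟩)
  have hI : ∀ x, x ∈ I ↔ ∃ r : R, m • r = x := fun x => TwoSidedIdeal.mem_mk' _ _ _ _ _ _ x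
  have hbot : I = ⊥ := by
    by_contra hne
    obtain ⟨r, hr⟩ := (hI h).1 (hall I hne)
    exact hmx r hr
  have hkill : ∀ x : R, m • x = 0 := by
    intro x
    have : m • x ∈ I := (hI _).2 ⟨x, rfl⟩
    rw [hbot] at this
    exact (TwoSidedIdeal.mem_bot R).1 this
  apply AddCommGroup.finite_of_fg_torsion
  intro x
  rw [isOfFinAddOrder_iff_nsmul_eq_zero]
  exact ⟨m, hm, hkill x⟩

end Pool.Agent.H158I.CR.Ab
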